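import Pool.Agent.H398.Embed
import Pool.Agent.H398.FreeBdd

/-!
# MP_094405_al, Q1: finite bounded ortholattices embed into extended permutohedra

Every finite ortholattice which is, as a lattice, a bounded homomorphic image of a free lattice
embeds, as an ortholattice, into `Reg e` for a strict ordering `e` on a finite set. So the answer to
Q1 is yes.

The definitions are in `Pool.Agent.H398.OrthoBasic` (`Ortholattice`, `StrictOrdering`, `cl`,
`interior`, `Reg`) and in `Pool.Agent.H398.FreeBdd` (`IsFreeLattice`, `IsBoundedImage`).

Outline of the proof.

* `FreeBdd`: with the condition of Whitman for the free lattice, obtained from its universal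
  property by a doubling construction, a finite bounded homomorphic image `K` of a free lattice is
  shown to have a rank function on its join-irreducible elements: every nontrivial cover of an
  element of rank `n` refines to a cover by join-irreducible elements of rank less than `n`.
* `Kappa`: in a finite ortholattice with such ranks, for every join-irreducible `p` there is a
  greatest element `κ p` above the lower cover of `p` and not above `p`; the map `p ↦ (κ p)ᗮ` is an
  involution of the join-irreducible elements which preserves the rank.
* `Rep`: a homomorphism of ortholattices `K → Reg e` is the same as a labelling of the pairs of `e`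
  by upper sets of `K` with suitable properties. By induction on the rank, pieces are glued along a
  common bottom and a common top to obtain labellings separating `p` from `κ p`.
* `Embed`: the disjoint union of these labelled orderings gives the embedding.
-/

set_option autoImplicit false

universe u v

namespace Pool.Agent.Results.MP_094405_al.EmbedsInReg

open Pool.Agent.H398

/-- **MP_094405_al, Q1.** A finite ortholattice `K` which is a bounded homomorphic image of a free
lattice embeds into the ortholattice `Reg e` of regular closed subsets of a strict ordering `e` on
a finite set. -/
theorem result (K : Type u) [Ortholattice K] [Finite K] (hK : IsBoundedImage.{u, v} K) :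
    ∃ (n : ℕ) (e : StrictOrdering (Fin n)) (f : K → Reg e), Function.Injective f ∧
      (∀ x y, f (x ⊔ y) = f x ⊔ f y) ∧ (∀ x y, f (x ⊓ y) = f x ⊓ f y) ∧
      (∀ x, f (Ortholattice.perp x) = Ortholattice.perp (f x)) ∧ f ⊥ = ⊥ ∧ f ⊤ = ⊤ :=
  embed_of_LB hK.lb

end Pool.Agent.Results.MP_094405_al.EmbedsInReg
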